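import Pool.Agent.H10.FEW.Stmts

/-!
# FEW, row EN: the energy of a product by the moments of its factors
-/

set_option autoImplicit false

namespace Pool.FEW

open Finset Pool.Agent.H98.ABCR Pool.SHA

/-- the sum of a character -/
noncomputable def en_S {A : Type} [AddCommGroup A] (V : Finset ℕ) (h : ℕ → A)
    (ψ : AddChar A ℂ) : ℂ := ∑ u ∈ V, ψ (h u)

theorem en_sum_prod {κ A : Type} [Fintype κ] [AddCommGroup A] (ψ : AddChar A ℂ) (x : κ → A) :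
    ∏ k, ψ (x k) = ψ (∑ k, x k) := by
  classical
  have : ∀ s : Finset κ, ∏ k ∈ s, ψ (x k) = ψ (∑ k ∈ s, x k) := by
    intro s
    induction s using Finset.induction_on with
    | empty => simp
    | insert a s ha ih => rw [prod_insert ha, sum_insert ha, AddChar.map_add_eq_mul, ih]
  exact this univ

theorem en_count {κ A : Type} [Fintype κ] [DecidableEq κ] [AddCommGroup A] [Fintype A]
    [DecidableEq A] (V : κ → Finset ℕ) (h : κ → ℕ → A) :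
    (((Fintype.piFinset V ×ˢ Fintype.piFinset V).filter
      (fun w => ∑ k, h k (w.1 k) = ∑ k, h k (w.2 k))).card : ℝ) * Fintype.card A =
      ∑ ψ : AddChar A ℂ, ∏ k, ‖en_S (V k) (h k) ψ‖ ^ 2 := by
  apply Complex.ofReal_injective
  have h1 : ∀ ψ : AddChar A ℂ, ∏ k, ((‖en_S (V k) (h k) ψ‖ : ℂ)) ^ 2 =
      ∑ w ∈ Fintype.piFinset V ×ˢ Fintype.piFinset V,
        ψ (∑ k, h k (w.1 k) - ∑ k, h k (w.2 k)) := by
    intro ψ
    have e1 : ∏ k, ((‖en_S (V k) (h k) ψ‖ : ℂ)) ^ 2 =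
        (∏ k, ∑ u ∈ V k, ψ (h k u)) * ∏ k, ∑ u ∈ V k, ψ (-h k u) := by
      rw [← prod_mul_distrib]
      refine prod_congr rfl (fun k _ => ?_)
      rw [← Complex.mul_conj', en_S, map_sum]
      congr 1
      refine sum_congr rfl (fun u _ => ?_)
      rw [AddChar.map_neg_eq_conj]
    rw [e1, prod_univ_sum, prod_univ_sum, sum_mul_sum, ← sum_product']
    refine sum_congr rfl (fun w _ => ?_)
    rw [en_sum_prod, en_sum_prod, ← AddChar.map_add_eq_mul, sum_neg_distrib, sub_eq_add_neg]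
  push_cast
  rw [sum_congr rfl (fun ψ _ => h1 ψ), sum_comm]
  simp_rw [AddChar.sum_apply_eq_ite, sub_eq_zero]
  rw [← sum_filter, sum_const, nsmul_eq_mul]

/-- a power lies between two integral powers -/
theorem en_pow {x P T : ℝ} (hx : 0 ≤ x) (hP : 0 < P) (hT : 1 ≤ T) :
    x ^ T ≤ P ^ (T - (⌊T⌋₊ : ℝ)) * x ^ ⌊T⌋₊ + P ^ (T - (⌈T⌉₊ : ℝ)) * x ^ ⌈T⌉₊ := by
  have h0 : (⌊T⌋₊ : ℝ) ≤ T := Nat.floor_le (by linarith)
  have h1 : T ≤ (⌈T⌉₊ : ℝ) := Nat.le_ceil T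
  have p1 : 0 ≤ P ^ (T - (⌊T⌋₊ : ℝ)) * x ^ ⌊T⌋₊ := by positivity
  have p2 : 0 ≤ P ^ (T - (⌈T⌉₊ : ℝ)) * x ^ ⌈T⌉₊ := by positivity
  rcases eq_or_lt_of_le hx with hx0 | hx0
  · rw [← hx0, Real.zero_rpow (by linarith)]
    rw [← hx0] at p1 p2
    linarith
  rcases le_total x P with h | h
  · have e1 : x ^ T = x ^ (T - (⌊T⌋₊ : ℝ)) * x ^ ⌊T⌋₊ := by
      rw [← Real.rpow_natCast x ⌊T⌋₊, ← Real.rpow_add hx0]
      congr 1
      ring
    have e2 : x ^ (T - (⌊T⌋₊ : ℝ)) ≤ P ^ (T - (⌊T⌋₊ : ℝ)) :=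
      Real.rpow_le_rpow hx0.le h (by linarith)
    have e3 : 0 ≤ x ^ ⌊T⌋₊ := by positivity
    nlinarith [mul_le_mul_of_nonneg_right e2 e3]
  · have e1 : x ^ T = x ^ (T - (⌈T⌉₊ : ℝ)) * x ^ ⌈T⌉₊ := by
      rw [← Real.rpow_natCast x ⌈T⌉₊, ← Real.rpow_add hx0]
      congr 1
      ring
    have e2 : x ^ (T - (⌈T⌉₊ : ℝ)) ≤ P ^ (T - (⌈T⌉₊ : ℝ)) :=
      Real.rpow_le_rpow_of_nonpos hP h (by linarith)
    have e3 : 0 ≤ x ^ ⌈T⌉₊ := by positivity
    nlinarith [mul_le_mul_of_nonneg_right e2 e3]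

theorem en_one_le {ι : Type} (s : Finset ι) (P : ι → ℝ) (h : ∀ j ∈ s, 1 ≤ P j) :
    1 ≤ ∏ j ∈ s, P j := by
  classical
  induction s using Finset.induction_on with
  | empty => simp
  | insert a s ha ih =>
    rw [prod_insert ha]
    have e1 := h a (mem_insert_self a s)
    have e2 := ih (fun j hj => h j (mem_insert_of_mem hj))
    nlinarith

theorem en_main {ι A : Type} [Fintype ι] [DecidableEq ι] [AddCommGroup A] [Fintype A]
    [DecidableEq A] (U : ι → Finset ℕ) (f : ι → ℕ → A) (J : Finset ι) (P : ι → ℝ) (B : ℝ)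
    (hB : 1 ≤ B) (hU : ∀ j, j ∉ J → (U j).card ≤ 1) (hP : ∀ j ∈ J, 1 < P j)
    (hm : ∀ j ∈ J, ∀ t : ℕ, 1 ≤ t → P j ^ (t - 1) < ∏ i ∈ J, P i →
      ((((Fintype.piFinset fun _ : Fin t => U j) ×ˢ (Fintype.piFinset fun _ : Fin t => U j)).filter
        (fun w => ∑ i, f j (w.1 i) = ∑ i, f j (w.2 i))).card : ℝ) ≤ B * P j ^ t) :
    (((Fintype.piFinset U ×ˢ Fintype.piFinset U).filter
      (fun w => ∑ j, f j (w.1 j) = ∑ j, f j (w.2 j))).card : ℝ) ≤ 2 * B * ∏ j ∈ J, P j := by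
  have hA : (0 : ℝ) < Fintype.card A := by
    exact_mod_cast Fintype.card_pos
  set Q : ℝ := ∏ j ∈ J, P j with hQ
  have hnorm : ∀ (j : ι) (ψ : AddChar A ℂ), ‖en_S (U j) (f j) ψ‖ ≤ (U j).card := by
    intro j ψ
    refine (norm_sum_le _ _).trans ?_
    rw [← nsmul_one, ← sum_const]
    refine sum_le_sum (fun u _ => ?_)
    rw [AddChar.norm_apply]
  have hred : ∀ ψ : AddChar A ℂ, ∏ j, ‖en_S (U j) (f j) ψ‖ ^ 2 ≤
      ∏ j ∈ J, ‖en_S (U j) (f j) ψ‖ ^ 2 := by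
    intro ψ
    rw [← prod_sdiff (subset_univ J)]
    have e1 : ∏ j ∈ univ \ J, ‖en_S (U j) (f j) ψ‖ ^ 2 ≤ 1 := by
      refine prod_le_one (fun j _ => by positivity) (fun j hj => ?_)
      have e2 := hnorm j ψ
      have e3 : ((U j).card : ℝ) ≤ 1 := by
        exact_mod_cast hU j (mem_sdiff.1 hj).2
      exact pow_le_one₀ (norm_nonneg _) (e2.trans e3)
    have e4 : 0 ≤ ∏ j ∈ J, ‖en_S (U j) (f j) ψ‖ ^ 2 := prod_nonneg (fun j _ => by positivity)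
    nlinarith
  have hcnt := en_count U f
  rw [← mul_le_mul_iff_left₀ hA, hcnt]
  refine (sum_le_sum (fun ψ _ => hred ψ)).trans ?_
  rcases J.eq_empty_or_nonempty with hJ | hJ
  · rw [hQ, hJ]
    simp only [prod_empty, sum_const, card_univ, AddChar.card_eq, nsmul_eq_mul, mul_one]
    nlinarith
  have hQ1 : 1 < Q := by
    rw [hQ]
    obtain ⟨j0, hj0⟩ := hJ
    rw [← mul_prod_erase _ _ hj0]
    have e1 : 1 ≤ ∏ j ∈ J.erase j0, P j :=
      en_one_le _ _ (fun j hj => (hP j (mem_of_mem_erase hj)).le)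
    have e2 := hP j0 hj0
    nlinarith
  have hlQ : 0 < Real.log Q := Real.log_pos hQ1
  have hlP : ∀ j ∈ J, 0 < Real.log (P j) := fun j hj => Real.log_pos (hP j hj)
  have hPQ : ∀ j ∈ J, P j ≤ Q := by
    intro j hj
    rw [hQ, ← mul_prod_erase _ _ hj]
    have e1 : 1 ≤ ∏ i ∈ J.erase j, P i :=
      en_one_le _ _ (fun i hi => (hP i (mem_of_mem_erase hi)).le)
    have e2 := hP j hj
    nlinarith
  set α : ι → ℝ := fun j => Real.log (P j) / Real.log Q with hα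
  set T : ι → ℝ := fun j => Real.log Q / Real.log (P j) with hT
  have hα0 : ∀ j ∈ J, 0 < α j := fun j hj => div_pos (hlP j hj) hlQ
  have hαT : ∀ j ∈ J, T j * α j = 1 := by
    intro j hj
    rw [hα, hT]
    have := (hlP j hj).ne'
    have := hlQ.ne'
    field_simp
  have hαs : ∑ j ∈ J, α j = 1 := by
    rw [hα, ← sum_div, ← Real.log_prod (fun j hj => by have := hP j hj; positivity), ← hQ]
    exact div_self hlQ.ne'
  have hT1 : ∀ j ∈ J, 1 ≤ T j := by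
    intro j hj
    rw [hT]
    show 1 ≤ Real.log Q / Real.log (P j)
    rw [le_div_iff₀ (hlP j hj), one_mul]
    exact Real.log_le_log (by linarith [hP j hj]) (hPQ j hj)
  have hPT : ∀ j ∈ J, P j ^ T j = Q := by
    intro j hj
    have h0 : 0 < P j := by linarith [hP j hj]
    rw [Real.rpow_def_of_pos h0, hT]
    show Real.exp (Real.log (P j) * (Real.log Q / Real.log (P j))) = Q
    rw [mul_div_cancel₀ _ (hlP j hj).ne', Real.exp_log (by linarith)]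
  have hamgm : ∀ ψ : AddChar A ℂ, ∏ j ∈ J, ‖en_S (U j) (f j) ψ‖ ^ 2 ≤
      ∑ j ∈ J, α j * (‖en_S (U j) (f j) ψ‖ ^ 2) ^ T j := by
    intro ψ
    have e1 := Real.geom_mean_le_arith_mean_weighted J α
      (fun j => (‖en_S (U j) (f j) ψ‖ ^ 2) ^ T j) (fun j hj => (hα0 j hj).le) hαs
      (fun j _ => by positivity)
    refine le_trans (le_of_eq ?_) e1
    refine prod_congr rfl (fun j hj => ?_)
    rw [← Real.rpow_mul (by positivity), hαT j hj, Real.rpow_one]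
  have hmom : ∀ j ∈ J, ∀ t : ℕ, 1 ≤ t → P j ^ (t - 1) < Q →
      ∑ ψ : AddChar A ℂ, (‖en_S (U j) (f j) ψ‖ ^ 2) ^ t ≤ B * P j ^ t * Fintype.card A := by
    intro j hj t ht hlt
    have e1 := hm j hj t ht hlt
    have e2 := en_count (fun _ : Fin t => U j) (fun _ : Fin t => f j)
    have e3 : ∑ ψ : AddChar A ℂ, (‖en_S (U j) (f j) ψ‖ ^ 2) ^ t =
        ∑ ψ : AddChar A ℂ, ∏ _k : Fin t, ‖en_S (U j) (f j) ψ‖ ^ 2 := by
      refine sum_congr rfl (fun ψ _ => ?_)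
      rw [prod_const, card_univ, Fintype.card_fin]
    rw [e3, ← e2]
    exact mul_le_mul_of_nonneg_right e1 hA.le
  have hone : ∀ j ∈ J, ∑ ψ : AddChar A ℂ, (‖en_S (U j) (f j) ψ‖ ^ 2) ^ T j ≤
      2 * B * Q * Fintype.card A := by
    intro j hj
    have hp1 := hP j hj
    have hp0 : 0 < P j := by linarith
    have hf1 : 1 ≤ ⌊T j⌋₊ := Nat.one_le_floor_iff _ |>.2 (hT1 j hj)
    have hc1 : 1 ≤ ⌈T j⌉₊ := hf1.trans (Nat.floor_le_ceil _)
    have hfT : (⌊T j⌋₊ : ℝ) ≤ T j := Nat.floor_le (by linarith [hT1 j hj])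
    have hcT : (⌈T j⌉₊ : ℝ) < T j + 1 := Nat.ceil_lt_add_one (by linarith [hT1 j hj])
    have hlt : ∀ n : ℕ, 1 ≤ n → (n : ℝ) < T j + 1 → P j ^ (n - 1) < Q := by
      intro n hn hnT
      rw [← hPT j hj, ← Real.rpow_natCast, Nat.cast_sub hn]
      exact Real.rpow_lt_rpow_of_exponent_lt hp1 (by push_cast; linarith)
    have e1 := hmom j hj _ hf1 (hlt _ hf1 (by linarith))
    have e2 := hmom j hj _ hc1 (hlt _ hc1 hcT)
    have e3 : ∑ ψ : AddChar A ℂ, (‖en_S (U j) (f j) ψ‖ ^ 2) ^ T j ≤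
        P j ^ (T j - (⌊T j⌋₊ : ℝ)) * ∑ ψ : AddChar A ℂ, (‖en_S (U j) (f j) ψ‖ ^ 2) ^ ⌊T j⌋₊ +
        P j ^ (T j - (⌈T j⌉₊ : ℝ)) * ∑ ψ : AddChar A ℂ, (‖en_S (U j) (f j) ψ‖ ^ 2) ^ ⌈T j⌉₊ := by
      rw [mul_sum, mul_sum, ← sum_add_distrib]
      exact sum_le_sum (fun ψ _ => en_pow (by positivity) hp0 (hT1 j hj))
    have e4 : ∀ n : ℕ, P j ^ (T j - (n : ℝ)) * (B * P j ^ n * Fintype.card A) =
        B * Q * Fintype.card A := by
      intro n
      have e5 : P j ^ (T j - (n : ℝ)) * P j ^ n = Q := by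
        rw [← Real.rpow_natCast (P j) n, ← Real.rpow_add hp0, sub_add_cancel, hPT j hj]
      calc P j ^ (T j - (n : ℝ)) * (B * P j ^ n * Fintype.card A)
          = B * (P j ^ (T j - (n : ℝ)) * P j ^ n) * Fintype.card A := by ring
        _ = _ := by rw [e5]
    have e6 := mul_le_mul_of_nonneg_left e1
      (show (0 : ℝ) ≤ P j ^ (T j - (⌊T j⌋₊ : ℝ)) by positivity)
    have e7 := mul_le_mul_of_nonneg_left e2
      (show (0 : ℝ) ≤ P j ^ (T j - (⌈T j⌉₊ : ℝ)) by positivity)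
    rw [e4] at e6 e7
    linarith
  calc ∑ ψ : AddChar A ℂ, ∏ j ∈ J, ‖en_S (U j) (f j) ψ‖ ^ 2
      ≤ ∑ ψ : AddChar A ℂ, ∑ j ∈ J, α j * (‖en_S (U j) (f j) ψ‖ ^ 2) ^ T j :=
        sum_le_sum (fun ψ _ => hamgm ψ)
    _ = ∑ j ∈ J, α j * ∑ ψ : AddChar A ℂ, (‖en_S (U j) (f j) ψ‖ ^ 2) ^ T j := by
        rw [sum_comm]
        exact sum_congr rfl (fun j _ => by rw [mul_sum])
    _ ≤ ∑ j ∈ J, α j * (2 * B * Q * Fintype.card A) :=
        sum_le_sum (fun j hj => mul_le_mul_of_nonneg_left (hone j hj) (hα0 j hj).le)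
    _ = 2 * B * Q * Fintype.card A := by rw [← sum_mul, hαs, one_mul]

theorem en_thm : S_EN := by
  intro ι G _ _ _ _ _ U f J P B hB hU hP hm
  have h1 := en_main (A := Additive G) U (fun j u => Additive.ofMul (f j u)) J P B hB hU hP ?_
  · refine le_trans (le_of_eq ?_) h1
    congr 2
  · intro j hj t ht hlt
    refine le_trans (le_of_eq ?_) (hm j hj t ht hlt)
    congr 2

end Pool.FEW
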